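import Pool.Agent.Lib.MP_bbf27c_co.Defs

/-!
# Colours seen at a vertex, and how moves change them
-/

namespace Pool.Agent.MP_bbf27c_co

open Finset
open scoped Classical

variable {V : Type*} [Fintype V] {G : SimpleGraph V} {c : Position V 5}

/-- The degree (computed classically). -/
noncomputable def dg (G : SimpleGraph V) (v : V) : ℕ := (univ.filter fun w => G.Adj v w).card

/-- The colours at `v`. -/
noncomputable def cols (G : SimpleGraph V) (c : Position V 5) (v : V) : Finset (Fin 5) :=
  univ.filter fun i => ∃ w, G.Adj v w ∧ c s(v, w) = some i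

/-- The neighbours along uncoloured edges. -/
noncomputable def unc (G : SimpleGraph V) (c : Position V 5) (v : V) : Finset V :=
  univ.filter fun w => G.Adj v w ∧ c s(v, w) = none

/-- The neighbours of degree `≠ 4` along uncoloured edges. -/
noncomputable def sd (G : SimpleGraph V) (c : Position V 5) (v : V) : Finset V :=
  univ.filter fun w => G.Adj v w ∧ c s(v, w) = none ∧ dg G w ≠ 4

/-- The colouring is proper. -/
def Proper (G : SimpleGraph V) (c : Position V 5) : Prop :=
  ∀ v w w' i, G.Adj v w → G.Adj v w' → c s(v, w) = some i → c s(v, w') = some i → w = w'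

lemma mem_cols {v : V} {i : Fin 5} : i ∈ cols G c v ↔ ∃ w, G.Adj v w ∧ c s(v, w) = some i := by
  simp [cols]

lemma mem_unc {v w : V} : w ∈ unc G c v ↔ G.Adj v w ∧ c s(v, w) = none := by
  simp [unc]

lemma mem_sd {v w : V} : w ∈ sd G c v ↔ G.Adj v w ∧ c s(v, w) = none ∧ dg G w ≠ 4 := by
  simp [sd]

lemma card_cols_add (hP : Proper G c) (v : V) :
    (cols G c v).card + (unc G c v).card = dg G v := by
  have h1 : (univ.filter fun w => G.Adj v w ∧ c s(v, w) ≠ none).card = (cols G c v).card := by
    refine Finset.card_bij' (fun w _ => (c s(v, w)).getD 0)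
      (fun i hi => (mem_cols.mp hi).choose) ?_ ?_ ?_ ?_
    · intro w hw
      simp only [mem_filter, mem_univ, true_and] at hw
      obtain ⟨i, hi⟩ := Option.ne_none_iff_exists'.mp hw.2
      rw [mem_cols]
      exact ⟨w, hw.1, by simp [hi]⟩
    · intro i hi
      have h := (mem_cols.mp hi).choose_spec
      simp only [mem_filter, mem_univ, true_and]
      exact ⟨h.1, by rw [h.2]; simp⟩
    · intro w hw
      simp only [mem_filter, mem_univ, true_and] at hw
      obtain ⟨i, hi⟩ := Option.ne_none_iff_exists'.mp hw.2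
      have hm : (c s(v, w)).getD 0 ∈ cols G c v := by
        rw [mem_cols]; exact ⟨w, hw.1, by simp [hi]⟩
      have h := (mem_cols.mp hm).choose_spec
      refine hP v _ _ i h.1 hw.1 ?_ hi
      rw [h.2, hi]; simp
    · intro i hi
      have h := (mem_cols.mp hi).choose_spec
      show (c s(v, _)).getD 0 = i
      rw [h.2]; simp
  rw [← h1, unc, dg, add_comm, ← card_union_of_disjoint]
  · congr 1
    ext w
    simp only [mem_union, mem_filter, mem_univ, true_and]
    tauto
  · rw [disjoint_left]
    intro w hw hw'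
    simp only [mem_filter, mem_univ, true_and] at hw hw'
    exact hw'.2 hw.2

lemma legal_iff {a b : V} {i : Fin 5} :
    Legal G c s(a, b) i ↔ G.Adj a b ∧ c s(a, b) = none ∧ i ∉ cols G c a ∧ i ∉ cols G c b := by
  constructor
  · rintro ⟨h, hn, hl⟩
    refine ⟨h, hn, fun hi => ?_, fun hi => ?_⟩
    · obtain ⟨w, hw, hc⟩ := mem_cols.mp hi
      exact hl s(a, w) hw ⟨a, by simp, by simp⟩ hc
    · obtain ⟨w, hw, hc⟩ := mem_cols.mp hi
      exact hl s(b, w) hw ⟨b, by simp, by simp⟩ hc
  · rintro ⟨h, hn, ha, hb⟩
    refine ⟨h, hn, ?_⟩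
    rintro e' he' ⟨v, hv, hv'⟩ hc
    obtain ⟨w, rfl⟩ := hv'
    have hw : G.Adj v w := he'
    have hm : i ∈ cols G c v := mem_cols.mpr ⟨w, hw, hc⟩
    rcases Sym2.mem_iff.mp hv with h1 | h1
    · subst h1; exact ha hm
    · subst h1; exact hb hm

lemma play_self (e : Sym2 V) (i : Fin 5) : play c e i e = some i := by
  simp [play]

lemma play_ne {e e' : Sym2 V} (i : Fin 5) (h : e' ≠ e) : play c e i e' = c e' := by
  simp [play, Function.update_of_ne h]

lemma play_none {e e' : Sym2 V} {i : Fin 5} : play c e i e' = none ↔ e' ≠ e ∧ c e' = none := by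
  by_cases h : e' = e
  · subst h; simp [play_self]
  · rw [play_ne i h]; simp [h]

/-- Edges `s(x,w)` of `x` outside the played pair keep their value. -/
lemma play_off {a b x w : V} (i : Fin 5) (ha : x ≠ a) (hb : x ≠ b) :
    play c s(a, b) i s(x, w) = c s(x, w) := by
  refine play_ne i fun h => ?_
  rcases Sym2.eq_iff.mp h with ⟨h, -⟩ | ⟨h, -⟩
  · exact ha h
  · exact hb h

lemma play_off' {a b x w : V} (i : Fin 5) (ha : w ≠ a) (hb : w ≠ b) :
    play c s(a, b) i s(x, w) = c s(x, w) := by
  rw [Sym2.eq_swap (a := x) (b := w)]; exact play_off i ha hb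

lemma cols_off {a b x : V} (i : Fin 5) (ha : x ≠ a) (hb : x ≠ b) :
    cols G (play c s(a, b) i) x = cols G c x := by
  ext j
  simp only [mem_cols, play_off i ha hb]

lemma cols_play {a b : V} {i : Fin 5} (h : Legal G c s(a, b) i) :
    cols G (play c s(a, b) i) a = insert i (cols G c a) := by
  obtain ⟨hab, hn, -, -⟩ := legal_iff.mp h
  ext j
  rw [mem_insert, mem_cols, mem_cols]
  constructor
  · rintro ⟨w, hw, hj⟩
    by_cases hwb : w = b
    · subst hwb
      rw [play_self] at hj
      exact Or.inl (Option.some_injective _ hj).symm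
    · right
      refine ⟨w, hw, ?_⟩
      rwa [play_ne] at hj
      intro h
      exact hwb (Sym2.congr_right.mp h)
  · rintro (rfl | ⟨w, hw, hj⟩)
    · exact ⟨b, hab, play_self _ _⟩
    · refine ⟨w, hw, ?_⟩
      rwa [play_ne]
      intro h
      rw [h, hn] at hj
      cases hj

lemma Legal.symm {a b : V} {i : Fin 5} (h : Legal G c s(a, b) i) : Legal G c s(b, a) i := by
  rwa [Sym2.eq_swap]

lemma cols_play' {a b : V} {i : Fin 5} (h : Legal G c s(a, b) i) :
    cols G (play c s(a, b) i) b = insert i (cols G c b) := by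
  have := cols_play h.symm
  rwa [Sym2.eq_swap] at this

lemma cols_mono {a b : V} {i : Fin 5} (h : Legal G c s(a, b) i) (x : V) :
    cols G c x ⊆ cols G (play c s(a, b) i) x := by
  by_cases ha : x = a
  · subst ha; rw [cols_play h]; exact subset_insert _ _
  by_cases hb : x = b
  · subst hb; rw [cols_play' h]; exact subset_insert _ _
  rw [cols_off i ha hb]

lemma cols_sub {a b : V} {i : Fin 5} (h : Legal G c s(a, b) i) (x : V) :
    cols G (play c s(a, b) i) x ⊆ insert i (cols G c x) := by
  by_cases ha : x = a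
  · subst ha; rw [cols_play h]
  by_cases hb : x = b
  · subst hb; rw [cols_play' h]
  rw [cols_off i ha hb]; exact subset_insert _ _

lemma proper_play {a b : V} {i : Fin 5} (hP : Proper G c) (h : Legal G c s(a, b) i) :
    Proper G (play c s(a, b) i) := by
  obtain ⟨hab, hn, hna, hnb⟩ := legal_iff.mp h
  have key : ∀ v w, G.Adj v w → s(v, w) = s(a, b) → i ∉ cols G c v := by
    intro v w _ hs
    rcases Sym2.eq_iff.mp hs with ⟨h, -⟩ | ⟨h, -⟩
    · rw [h]; exact hna
    · rw [h]; exact hnb
  intro v w w' j hw hw' h1 h2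
  by_cases e1 : s(v, w) = s(a, b)
  · by_cases e2 : s(v, w') = s(a, b)
    · exact Sym2.congr_right.mp (e1.trans e2.symm)
    · exfalso
      rw [play_ne i e2] at h2
      rw [e1, play_self] at h1
      have h3 : i = j := Option.some_injective _ h1
      subst h3
      exact key v w hw e1 (mem_cols.mpr ⟨w', hw', h2⟩)
  · by_cases e2 : s(v, w') = s(a, b)
    · exfalso
      rw [play_ne i e1] at h1
      rw [e2, play_self] at h2
      have h3 : i = j := Option.some_injective _ h2
      subst h3
      exact key v w' hw' e2 (mem_cols.mpr ⟨w, hw, h1⟩)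
    · rw [play_ne i e1] at h1
      rw [play_ne i e2] at h2
      exact hP v w w' j hw hw' h1 h2

/-- If the two ends of every uncoloured edge see at most four colours, nobody is stuck. -/
lemma not_stuck (h : ∀ a b, G.Adj a b → c s(a, b) = none →
    (cols G c a ∪ cols G c b).card ≤ 4) : ¬ Stuck G c := by
  rintro ⟨e, he, hn, hl⟩
  induction e using Sym2.ind with
  | _ a b =>
    have h4 := h a b he hn
    obtain ⟨i, hi⟩ : ∃ i, i ∉ cols G c a ∪ cols G c b := by
      by_contra hcon
      push Not at hcon
      have : (univ : Finset (Fin 5)) ⊆ cols G c a ∪ cols G c b := fun i _ => hcon i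
      have := card_le_card this
      simp at this
      omega
    rw [notMem_union] at hi
    exact hl i (legal_iff.mpr ⟨he, hn, hi.1, hi.2⟩)

lemma exists_legal {a b : V} (hab : G.Adj a b) (hn : c s(a, b) = none)
    (h4 : (cols G c a ∪ cols G c b).card ≤ 4) : ∃ i, Legal G c s(a, b) i := by
  obtain ⟨i, hi⟩ : ∃ i, i ∉ cols G c a ∪ cols G c b := by
    by_contra hcon
    push Not at hcon
    have : (univ : Finset (Fin 5)) ⊆ cols G c a ∪ cols G c b := fun i _ => hcon i
    have := card_le_card this
    simp at this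
    omega
  rw [notMem_union] at hi
  exact ⟨i, legal_iff.mpr ⟨hab, hn, hi.1, hi.2⟩⟩

end Pool.Agent.MP_bbf27c_co
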