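import Mathlib

/-!
# The edge colouring game on a simple graph

Alice and Bob alternately colour one uncoloured edge of `G` with one of `k` colours so that no two
edges with a common end get the same colour; Alice moves first.  Bob wins if at some moment some
uncoloured edge has no admissible colour, Alice wins if all edges get coloured.
-/

namespace Pool.Agent.MP_bbf27c_co

/-- A position of the game with `k` colours: each pair of vertices is uncoloured (`none`) or has a
colour (only the values on the edges of the graph matter). -/
abbrev Position (V : Type*) (k : ℕ) := Sym2 V → Option (Fin k)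

variable {V : Type*}

/-- The move `colour the pair e with colour i` is admissible: `e` is an edge without colour and no
edge sharing a vertex with `e` has colour `i`. -/
def Legal (G : SimpleGraph V) {k : ℕ} (c : Position V k) (e : Sym2 V) (i : Fin k) : Prop :=
  e ∈ G.edgeSet ∧ c e = none ∧ ∀ e' ∈ G.edgeSet, (∃ v, v ∈ e ∧ v ∈ e') → c e' ≠ some i

/-- The position after colouring `e` with `i`. -/
noncomputable def play {k : ℕ} (c : Position V k) (e : Sym2 V) (i : Fin k) : Position V k :=
  open scoped Classical in Function.update c e (some i)

/-- Some uncoloured edge has no admissible colour (Bob has won). -/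
def Stuck (G : SimpleGraph V) {k : ℕ} (c : Position V k) : Prop :=
  ∃ e ∈ G.edgeSet, c e = none ∧ ∀ i, ¬ Legal G c e i

/-- `AliceWins G b c`: Alice has a winning strategy from position `c`; it is Alice's turn if
`b = true` and Bob's turn if `b = false`. -/
inductive AliceWins (G : SimpleGraph V) {k : ℕ} : Bool → Position V k → Prop
  | full (b : Bool) (c : Position V k) (h : ∀ e ∈ G.edgeSet, c e ≠ none) : AliceWins G b c
  | alice (c : Position V k) (e : Sym2 V) (i : Fin k) (hs : ¬ Stuck G c) (h : Legal G c e i)
      (w : AliceWins G false (play c e i)) : AliceWins G true c
  | bob (c : Position V k) (hs : ¬ Stuck G c)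
      (w : ∀ e i, Legal G c e i → AliceWins G true (play c e i)) : AliceWins G false c

/-- Alice, moving first from the empty position, wins the edge colouring game on `G` with `k`
colours. -/
def AliceWinsGame (G : SimpleGraph V) (k : ℕ) : Prop :=
  AliceWins G true (fun _ => none : Position V k)

/-- The game chromatic index: the least `k ≥ 1` for which Alice has a winning strategy. -/
noncomputable def gameChromaticIndex (G : SimpleGraph V) : ℕ :=
  sInf {k | 1 ≤ k ∧ AliceWinsGame G k}

end Pool.Agent.MP_bbf27c_co
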