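import Pool.Agent.Lib.MP_bbf27c_co.Basic

/-!
# The invariant kept by Alice
-/

namespace Pool.Agent.MP_bbf27c_co

open Finset
open scoped Classical

variable {V : Type*} [Fintype V] {G : SimpleGraph V} {c : Position V 5} {Own : V → V → Prop}

/-- The standing assumptions on the graph and on the owner relation. -/
structure Setup (G : SimpleGraph V) (Own : V → V → Prop) : Prop where
  d4 : ∀ v, dg G v ≤ 4
  two : ∀ x, dg G x = 4 → 2 ≤ (univ.filter fun w => G.Adj x w ∧ dg G w ≠ 4).card
  leg : ∀ x v u, G.Adj x v → dg G x = 4 → dg G v = 3 → G.Adj v u → u ≠ x → dg G u ≤ 2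
  o1 : ∀ x y, Own x y → G.Adj x y ∧ dg G x = 4 ∧ dg G y = 4
  o2 : ∀ x y y', Own x y → Own x y' → y = y'
  o3 : ∀ x y, G.Adj x y → dg G x = 4 → dg G y = 4 → Own x y ∨ Own y x
  o4 : ∀ x y z, dg G x = 4 → G.Adj x y → dg G y = 4 → ¬ Own x y → G.Adj x z → dg G z = 4 →
    ¬ Own x z → y = z

/-- `v` is a live leg of `x`. -/
def Live (G : SimpleGraph V) (c : Position V 5) (x v : V) : Prop :=
  G.Adj x v ∧ dg G v = 3 ∧ c s(x, v) = none ∧ Disjoint (cols G c x) (cols G c v)

/-- The invariant at a vertex `x` of degree four. -/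
structure InvAt (G : SimpleGraph V) (Own : V → V → Prop) (c : Position V 5) (x : V) : Prop where
  i1 : ∀ y, Own x y → c s(x, y) = none →
    (∀ w, G.Adj x w → dg G w ≠ 4 → c s(x, w) = none) ∧ ∀ v, Live G c x v → cols G c v = ∅
  i2 : ∀ v, Live G c x v → (cols G c v).card ≤ 1
  i3 : (sd G c x).card = 1 → ∀ v, Live G c x v → cols G c v = ∅
  i4 : ∀ y, G.Adj x y → dg G y = 4 → ¬ Own x y → c s(x, y) = none → (sd G c x).Nonempty

/-- The invariant. -/
def Inv (G : SimpleGraph V) (Own : V → V → Prop) (c : Position V 5) : Prop :=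
  ∀ x, dg G x = 4 → InvAt G Own c x

lemma live_of_play {a b x v : V} {i : Fin 5} (hl : Legal G c s(a, b) i)
    (h : Live G (play c s(a, b) i) x v) : Live G c x v := by
  obtain ⟨h1, h2, h3, h4⟩ := h
  exact ⟨h1, h2, (play_none.mp h3).2,
    Finset.disjoint_of_subset_left (cols_mono hl x)
      (Finset.disjoint_of_subset_right (cols_mono hl v) h4)⟩

lemma Live.mem_sd {x v : V} (h : Live G c x v) : v ∈ sd G c x := by
  rw [Pool.Agent.MP_bbf27c_co.mem_sd]
  exact ⟨h.1, h.2.2.1, by rw [h.2.1]; decide⟩

lemma InvAt.congr {c' : Position V 5} {x : V} (h : InvAt G Own c x)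
    (h1 : ∀ w, c' s(x, w) = c s(x, w))
    (h2 : ∀ v, G.Adj x v → dg G v = 3 → cols G c' v = cols G c v) : InvAt G Own c' x := by
  have hx : cols G c' x = cols G c x := by
    ext j; simp only [mem_cols, h1]
  have hs : sd G c' x = sd G c x := by
    ext w; simp only [mem_sd, h1]
  have hL : ∀ v, Live G c' x v → Live G c x v ∧ cols G c' v = cols G c v := by
    rintro v ⟨a1, a2, a3, a4⟩
    rw [h1] at a3
    rw [hx, h2 v a1 a2] at a4
    exact ⟨⟨a1, a2, a3, a4⟩, h2 v a1 a2⟩
  constructor
  · intro y hy hn
    rw [h1] at hn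
    obtain ⟨p, q⟩ := h.i1 y hy hn
    refine ⟨fun w hw hd => by rw [h1]; exact p w hw hd, fun v hv => ?_⟩
    rw [(hL v hv).2]; exact q v (hL v hv).1
  · intro v hv
    rw [(hL v hv).2]; exact h.i2 v (hL v hv).1
  · intro hc v hv
    rw [hs] at hc
    rw [(hL v hv).2]; exact h.i3 hc v (hL v hv).1
  · intro y hy hd hno hn
    rw [h1] at hn
    rw [hs]; exact h.i4 y hy hd hno hn

/-- A move away from `z` and from its neighbours of degree three keeps the invariant at `z`. -/
lemma InvAt.off {a b z : V} (i : Fin 5) (h : InvAt G Own c z) (ha : z ≠ a) (hb : z ≠ b)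
    (hv : ∀ v, G.Adj z v → dg G v = 3 → v ≠ a ∧ v ≠ b) :
    InvAt G Own (play c s(a, b) i) z :=
  h.congr (fun _ => play_off i ha hb) (fun v h1 h2 => cols_off i (hv v h1 h2).1 (hv v h1 h2).2)

/-- A move on an edge between two vertices of degree four keeps the invariant everywhere. -/
lemma InvAt.spine {a b x : V} {i : Fin 5} (h : InvAt G Own c x) (ha : dg G a = 4)
    (hb : dg G b = 4) (hl : Legal G c s(a, b) i) : InvAt G Own (play c s(a, b) i) x := by
  have hne : ∀ w, dg G w ≠ 4 → w ≠ a ∧ w ≠ b := by
    intro w hw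
    constructor <;> rintro rfl
    · exact hw ha
    · exact hw hb
  have h1 : ∀ w, dg G w ≠ 4 → play c s(a, b) i s(x, w) = c s(x, w) := fun w hw =>
    play_off' i (hne w hw).1 (hne w hw).2
  have hs : sd G (play c s(a, b) i) x = sd G c x := by
    ext w
    simp only [mem_sd]
    constructor
    · rintro ⟨p, q, r⟩; rw [h1 w r] at q; exact ⟨p, q, r⟩
    · rintro ⟨p, q, r⟩; rw [← h1 w r] at q; exact ⟨p, q, r⟩
  have hL : ∀ v, Live G (play c s(a, b) i) x v →
      Live G c x v ∧ cols G (play c s(a, b) i) v = cols G c v := by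
    intro v hv
    refine ⟨live_of_play hl hv, ?_⟩
    have h3 : dg G v ≠ 4 := by rw [hv.2.1]; decide
    exact cols_off i (hne v h3).1 (hne v h3).2
  constructor
  · intro y hy hn
    obtain ⟨p, q⟩ := h.i1 y hy (play_none.mp hn).2
    refine ⟨fun w hw hd => by rw [h1 w hd]; exact p w hw hd, fun v hv => ?_⟩
    rw [(hL v hv).2]; exact q v (hL v hv).1
  · intro v hv
    rw [(hL v hv).2]; exact h.i2 v (hL v hv).1
  · intro hc v hv
    rw [hs] at hc
    rw [(hL v hv).2]; exact h.i3 hc v (hL v hv).1
  · intro y hy hd hno hn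
    rw [hs]; exact h.i4 y hy hd hno (play_none.mp hn).2

/-- A move on an edge from `x` (degree four) to a vertex of another degree affects only `x`. -/
lemma InvAt.side_off (S : Setup G Own) {x w z : V} (i : Fin 5) (h : InvAt G Own c z)
    (hx : dg G x = 4) (hxw : G.Adj x w) (hw : dg G w ≠ 4) (hz : dg G z = 4) (hzx : z ≠ x) :
    InvAt G Own (play c s(x, w) i) z := by
  refine h.off i hzx ?_ ?_
  · rintro rfl; exact hw hz
  · intro v hv hd
    constructor
    · rintro rfl; omega
    · rintro rfl
      have := S.leg x v z hxw hx hd hv.symm hzx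
      omega

/-- A move on an edge `v u` where `v` has degree three and is adjacent to `x` affects only `x`. -/
lemma InvAt.outer_off (S : Setup G Own) {x v u z : V} (i : Fin 5) (h : InvAt G Own c z)
    (hx : dg G x = 4) (hxv : G.Adj x v) (hv : dg G v = 3) (hvu : G.Adj v u) (hux : u ≠ x)
    (hz : dg G z = 4) (hzx : z ≠ x) :
    InvAt G Own (play c s(v, u) i) z := by
  have hu := S.leg x v u hxv hx hv hvu hux
  refine h.off i ?_ ?_ ?_
  · rintro rfl; omega
  · rintro rfl; omega
  · intro v' hv' hd
    constructor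
    · rintro rfl
      have := S.leg x v' z hxv hx hv hv'.symm hzx
      omega
    · rintro rfl; omega

lemma cols_lt (hP : Proper G c) {a b : V} (hab : G.Adj a b) (hn : c s(a, b) = none) :
    (cols G c a).card + 1 ≤ dg G a := by
  have h := card_cols_add hP a
  have h1 : 0 < (unc G c a).card := Finset.card_pos.mpr ⟨b, mem_unc.mpr ⟨hab, hn⟩⟩
  omega

lemma k1 (S : Setup G Own) (hP : Proper G c) {x y : V} (hI : InvAt G Own c x) (ho : Own x y)
    (hn : c s(x, y) = none) : (cols G c x).card ≤ 1 := by
  obtain ⟨hxy, hx, hy⟩ := S.o1 x y ho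
  have h := card_cols_add hP x
  have h2 := S.two x hx
  have hsub : insert y (univ.filter fun w => G.Adj x w ∧ dg G w ≠ 4) ⊆ unc G c x := by
    intro w hw
    rw [mem_insert, mem_filter] at hw
    rw [mem_unc]
    rcases hw with rfl | ⟨-, h1, h2⟩
    · exact ⟨hxy, hn⟩
    · exact ⟨h1, (hI.i1 y ho hn).1 w h1 h2⟩
  have h3 := card_le_card hsub
  rw [card_insert_of_notMem (by simp [hy])] at h3
  omega

lemma k2 (S : Setup G Own) (hP : Proper G c) {x y : V} (hI : InvAt G Own c y) (hy : dg G y = 4)
    (hyx : G.Adj y x) (hx : dg G x = 4) (hn : c s(y, x) = none) : (cols G c y).card ≤ 2 := by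
  by_cases ho : Own y x
  · have := k1 S hP hI ho hn; omega
  · obtain ⟨w, hw⟩ := hI.i4 x hyx hx ho hn
    rw [mem_sd] at hw
    have h := card_cols_add hP y
    have hwx : w ≠ x := by rintro rfl; exact hw.2.2 hx
    have hsub : ({w, x} : Finset V) ⊆ unc G c y := by
      intro z hz
      simp only [mem_insert, mem_singleton] at hz
      rw [mem_unc]
      rcases hz with rfl | rfl
      · exact ⟨hw.1, hw.2.1⟩
      · exact ⟨hyx, hn⟩
    have h3 := card_le_card hsub
    rw [card_pair hwx] at h3
    omega

/-- The three kinds of harmless uncoloured edges. -/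
def Safe (G : SimpleGraph V) (c : Position V 5) (a b : V) : Prop :=
  (cols G c a ∪ cols G c b).card ≤ 3 ∨ dg G a + dg G b ≤ 6 ∨
    (¬ Disjoint (cols G c a) (cols G c b) ∧ dg G a + dg G b ≤ 7)

lemma Safe.symm {a b : V} (h : Safe G c a b) : Safe G c b a := by
  rcases h with h | h | ⟨h, h'⟩
  · left; rwa [union_comm]
  · right; left; omega
  · right; right; exact ⟨fun h2 => h h2.symm, by omega⟩

lemma safe_edge_aux (S : Setup G Own) (hP : Proper G c) (hI : Inv G Own c) {x v : V}
    (hab : G.Adj x v) (hn : c s(x, v) = none) (hx : dg G x = 4) : Safe G c x v := by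
  by_cases hv : dg G v = 4
  · left
    have hn' : c s(v, x) = none := by rwa [Sym2.eq_swap]
    have hu := card_union_le (cols G c x) (cols G c v)
    rcases S.o3 x v hab hx hv with ho | ho
    · have h1 := k1 S hP (hI x hx) ho hn
      have h2 := k2 S hP (hI v hv) hv hab.symm hx hn'
      omega
    · have h1 := k1 S hP (hI v hv) ho hn'
      have h2 := k2 S hP (hI x hx) hx hab hv hn
      omega
  · by_cases hv3 : dg G v = 3
    · by_cases hd : Disjoint (cols G c x) (cols G c v)
      · left
        have hL : Live G c x v := ⟨hab, hv3, hn, hd⟩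
        have h2 := (hI x hx).i2 v hL
        have hu := card_union_le (cols G c x) (cols G c v)
        have hc := card_cols_add hP x
        have hm := hL.mem_sd
        have hsub : sd G c x ⊆ unc G c x := by
          intro w hw; rw [mem_sd] at hw; rw [mem_unc]; exact ⟨hw.1, hw.2.1⟩
        have hle := card_le_card hsub
        have hpos : 0 < (sd G c x).card := card_pos.mpr ⟨v, hm⟩
        by_cases h1 : (sd G c x).card = 1
        · have := (hI x hx).i3 h1 v hL
          rw [this] at hu ⊢
          simp only [card_empty] at hu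
          omega
        · omega
      · right; right; exact ⟨hd, by omega⟩
    · right; left
      have := S.d4 v
      omega

lemma safe_edge (S : Setup G Own) (hP : Proper G c) (hI : Inv G Own c) {a b : V}
    (hab : G.Adj a b) (hn : c s(a, b) = none) : Safe G c a b := by
  by_cases ha : dg G a = 4
  · exact safe_edge_aux S hP hI hab hn ha
  by_cases hb : dg G b = 4
  · refine (safe_edge_aux S hP hI hab.symm ?_ hb).symm
    rwa [Sym2.eq_swap]
  right; left
  have := S.d4 a
  have := S.d4 b
  omega

lemma Safe.le (hP : Proper G c) {a b : V} (h : Safe G c a b) (hab : G.Adj a b)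
    (hn : c s(a, b) = none) : (cols G c a ∪ cols G c b).card ≤ 4 := by
  have h1 := cols_lt hP hab hn
  have h2 := cols_lt hP hab.symm (by rwa [Sym2.eq_swap])
  have hu := card_union_add_card_inter (cols G c a) (cols G c b)
  rcases h with h | h | ⟨h, h'⟩
  · omega
  · omega
  · have h3 : 0 < (cols G c a ∩ cols G c b).card := by
      rw [card_pos]
      rwa [not_disjoint_iff_nonempty_inter] at h
    omega

/-- After one more move, harmless edges still have an admissible colour. -/
lemma Safe.le_play (hP : Proper G c) {a b p q : V} {i : Fin 5} (h : Safe G c a b)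
    (hab : G.Adj a b) (hl : Legal G c s(p, q) i) (hn : play c s(p, q) i s(a, b) = none) :
    (cols G (play c s(p, q) i) a ∪ cols G (play c s(p, q) i) b).card ≤ 4 := by
  rcases h with h | h | ⟨h, h'⟩
  · have hsub : cols G (play c s(p, q) i) a ∪ cols G (play c s(p, q) i) b ⊆
        insert i (cols G c a ∪ cols G c b) := by
      intro j hj
      rw [mem_union] at hj
      rw [mem_insert, mem_union]
      rcases hj with hj | hj
      · have := cols_sub hl a hj
        rw [mem_insert] at this; tauto
      · have := cols_sub hl b hj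
        rw [mem_insert] at this; tauto
    have h1 := card_le_card hsub
    have h2 := card_insert_le i (cols G c a ∪ cols G c b)
    omega
  · exact Safe.le (proper_play hP hl) (Or.inr (Or.inl h)) hab hn
  · refine Safe.le (proper_play hP hl) (Or.inr (Or.inr ⟨?_, h'⟩)) hab hn
    intro hd
    exact h (Finset.disjoint_of_subset_left (cols_mono hl a)
      (Finset.disjoint_of_subset_right (cols_mono hl b) hd))

lemma not_stuck_alice (S : Setup G Own) (hP : Proper G c) (hI : Inv G Own c) : ¬ Stuck G c :=
  not_stuck fun _ _ hab hn => (safe_edge S hP hI hab hn).le hP hab hn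

lemma not_stuck_bob (S : Setup G Own) (hP : Proper G c) (hI : Inv G Own c) {p q : V} {i : Fin 5}
    (hl : Legal G c s(p, q) i) : ¬ Stuck G (play c s(p, q) i) :=
  not_stuck fun _ _ hab hn =>
    (safe_edge S hP hI hab (play_none.mp hn).2).le_play hP hab hl hn

end Pool.Agent.MP_bbf27c_co
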