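import Mathlib

/-!
# Owners of the edges of a graph of maximum degree two

For a symmetric relation `S` in which every vertex has at most two partners, one can choose for
each vertex at most one `owned` partner so that every pair is owned by one of its ends and a
vertex with a partner owns one.
-/

namespace Pool.Agent.MP_bbf27c_co

open Finset
open scoped Classical

variable {V : Type*} [Fintype V]

lemma exists_end (S : SimpleGraph V)
    (two : ∀ x, (univ.filter fun w => S.Adj x w).card ≤ 2) :
    ∃ f : S.edgeSet → V, Function.Injective f ∧ ∀ e : S.edgeSet, f e ∈ (e : Sym2 V) := by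
  have key : ∃ f : S.edgeSet → V, Function.Injective f ∧
      ∀ e : S.edgeSet, f e ∈ (univ.filter fun v => v ∈ (e : Sym2 V)) := by
    rw [← Finset.all_card_le_biUnion_card_iff_exists_injective]
    intro s
    set T := s.biUnion (fun e => univ.filter fun v => v ∈ (e : Sym2 V)) with hT
    have h := Finset.card_mul_le_card_mul (s := s) (t := T) (m := 2) (n := 2)
      (fun (e : S.edgeSet) (v : V) => v ∈ (e : Sym2 V)) ?_ ?_
    · omega
    · rintro ⟨e, he⟩ hes
      induction e using Sym2.ind with
      | _ a b =>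
        have hab : S.Adj a b := he
        have hsub : ({a, b} : Finset V) ⊆
            T.bipartiteAbove (fun (e : S.edgeSet) (v : V) => v ∈ (e : Sym2 V)) ⟨s(a, b), he⟩ := by
          intro v hv
          have hv' : v ∈ s(a, b) := by
            simp only [mem_insert, mem_singleton] at hv
            rcases hv with h | h <;> simp [h]
          simp only [bipartiteAbove, mem_filter, hT, mem_biUnion, mem_univ, true_and]
          exact ⟨⟨⟨s(a, b), he⟩, hes, hv'⟩, hv'⟩
        calc 2 = ({a, b} : Finset V).card := (card_pair hab.ne).symm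
          _ ≤ _ := card_le_card hsub
    · intro v _
      refine le_trans ?_ (two v)
      refine card_le_card_of_injOn
        (fun e => if h : v ∈ (e : Sym2 V) then Sym2.Mem.other h else v) ?_ ?_
      · rintro ⟨e, he⟩ hev
        simp only [bipartiteBelow, coe_filter, Set.mem_setOf_eq] at hev
        have hv : v ∈ e := hev.2
        have h2 : s(v, Sym2.Mem.other hv) = e := Sym2.other_spec hv
        have h3 : S.Adj v (Sym2.Mem.other hv) := by
          rw [← SimpleGraph.mem_edgeSet, h2]; exact he
        simp only [hv, dif_pos, coe_filter, mem_univ, true_and, Set.mem_setOf_eq]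
        exact h3
      · rintro ⟨e, he⟩ hev ⟨e', he'⟩ hev' hee
        simp only [bipartiteBelow, coe_filter, Set.mem_setOf_eq] at hev hev'
        have hv : v ∈ e := hev.2
        have hv' : v ∈ e' := hev'.2
        have h2 : s(v, Sym2.Mem.other hv) = e := Sym2.other_spec hv
        have h2' : s(v, Sym2.Mem.other hv') = e' := Sym2.other_spec hv'
        simp only [hv, hv', dif_pos] at hee
        apply Subtype.ext
        show e = e'
        rw [← h2, ← h2', hee]
  obtain ⟨f, hf, hm⟩ := key
  exact ⟨f, hf, fun e => by simpa using hm e⟩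

/-- The owner relation. -/
lemma exists_owner (S : SimpleGraph V)
    (two : ∀ x, (univ.filter fun w => S.Adj x w).card ≤ 2) :
    ∃ Own : V → V → Prop, (∀ x y, Own x y → S.Adj x y) ∧
      (∀ x y y', Own x y → Own x y' → y = y') ∧
      (∀ x y, S.Adj x y → Own x y ∨ Own y x) ∧
      (∀ x y z, S.Adj x y → ¬ Own x y → S.Adj x z → ¬ Own x z → y = z) := by
  obtain ⟨f, hf, hm⟩ := exists_end S two
  let ch : V → V := fun x => if h : ∃ y, S.Adj x y then h.choose else x
  have hch : ∀ x y, S.Adj x y → S.Adj x (ch x) := by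
    intro x y h
    have h' : ∃ y, S.Adj x y := ⟨y, h⟩
    simp only [ch, h', dif_pos]
    exact h'.choose_spec
  let P : V → V → Prop := fun x y => ∃ h : S.Adj x y, f ⟨s(x, y), h⟩ = x
  refine ⟨fun x y => P x y ∨ (S.Adj x y ∧ (∀ z, ¬ P x z) ∧ y = ch x), ?_, ?_, ?_, ?_⟩
  · rintro x y (⟨h, -⟩ | ⟨h, -⟩) <;> exact h
  · rintro x y y' (⟨h, e⟩ | ⟨h, n, e⟩) (⟨h', e'⟩ | ⟨h', n', e'⟩)
    · have h1 := hf (e.trans e'.symm)
      have h2 : s(x, y) = s(x, y') := congrArg Subtype.val h1
      exact Sym2.congr_right.mp h2
    · exact absurd ⟨h, e⟩ (n' y)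
    · exact absurd ⟨h', e'⟩ (n y')
    · rw [e, e']
  · intro x y h
    have h1 : f ⟨s(x, y), h⟩ ∈ s(x, y) := hm ⟨s(x, y), h⟩
    rcases Sym2.mem_iff.mp h1 with h2 | h2
    · exact Or.inl (Or.inl ⟨h, h2⟩)
    · refine Or.inr (Or.inl ⟨h.symm, ?_⟩)
      have h3 : (⟨s(y, x), h.symm⟩ : S.edgeSet) = ⟨s(x, y), h⟩ := Subtype.ext Sym2.eq_swap
      rw [h3]; exact h2
  · intro x y z hy ny hz nz
    by_contra hyz
    -- `x` owns some `w`
    obtain ⟨w, hw, ow⟩ : ∃ w, S.Adj x w ∧
        (P x w ∨ (S.Adj x w ∧ (∀ z, ¬ P x z) ∧ w = ch x)) := by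
      by_cases h : ∃ w, P x w
      · obtain ⟨w, hw⟩ := h
        exact ⟨w, hw.1, Or.inl hw⟩
      · push Not at h
        exact ⟨ch x, hch x y hy, Or.inr ⟨hch x y hy, h, rfl⟩⟩
    have hwy : w ≠ y := by rintro rfl; exact ny ow
    have hwz : w ≠ z := by rintro rfl; exact nz ow
    have hsub : ({w, y, z} : Finset V) ⊆ univ.filter fun w => S.Adj x w := by
      intro v hv
      simp only [mem_insert, mem_singleton] at hv
      simp only [mem_filter, mem_univ, true_and]
      rcases hv with h | h | h <;> rw [h] <;> assumption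
    have h3 : ({w, y, z} : Finset V).card = 3 := by
      rw [card_insert_of_notMem, card_pair hyz]
      simp [hwy, hwz]
    have := card_le_card hsub
    have := two x
    omega

end Pool.Agent.MP_bbf27c_co
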