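import Pool.Agent.Lib.MP_bbf27c_co.Inv

/-!
# Alice's replies
-/

namespace Pool.Agent.MP_bbf27c_co

open Finset
open scoped Classical

variable {V : Type*} [Fintype V] {G : SimpleGraph V} {c : Position V 5} {Own : V → V → Prop}

/-- Alice has a move after which the invariant holds. -/
def Good (G : SimpleGraph V) (Own : V → V → Prop) (c : Position V 5) : Prop :=
  ∃ a b i, Legal G c s(a, b) i ∧ Inv G Own (play c s(a, b) i)

/-- Reply 1: colour the owned edge. -/
lemma reply1 (S : Setup G Own) (hP : Proper G c) {x y : V} (ho : Own x y)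
    (hn : c s(x, y) = none) (hz : ∀ z, dg G z = 4 → z ≠ x → InvAt G Own c z)
    (hx2 : (cols G c x).card ≤ 2) (h2 : ∀ v, Live G c x v → (cols G c v).card ≤ 1)
    (h3 : (sd G c x).card = 1 → ∀ v, Live G c x v → cols G c v = ∅)
    (h4 : (sd G c x).Nonempty) : Good G Own c := by
  obtain ⟨hxy, hx, hy⟩ := S.o1 x y ho
  have hk := k2 S hP (hz y hy hxy.ne') hy hxy.symm hx (by rwa [Sym2.eq_swap])
  have hu := card_union_le (cols G c x) (cols G c y)
  obtain ⟨j, hj⟩ := exists_legal hxy hn (by omega)
  refine ⟨x, y, j, hj, fun z hz4 => ?_⟩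
  by_cases hzx : z = x
  · subst hzx
    have hs : sd G (play c s(z, y) j) z = sd G c z := by
      ext w
      simp only [mem_sd]
      have : dg G w ≠ 4 → play c s(z, y) j s(z, w) = c s(z, w) := by
        intro hw
        refine play_ne j fun h => ?_
        have := Sym2.congr_right.mp h
        exact hw (this ▸ hy)
      constructor
      · rintro ⟨p, q, r⟩; rw [this r] at q; exact ⟨p, q, r⟩
      · rintro ⟨p, q, r⟩; rw [← this r] at q; exact ⟨p, q, r⟩
    have hL : ∀ v, Live G (play c s(z, y) j) z v →
        Live G c z v ∧ cols G (play c s(z, y) j) v = cols G c v := by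
      intro v hv
      refine ⟨live_of_play hj hv, cols_off j hv.1.ne' ?_⟩
      rintro rfl
      have := hv.2.1
      omega
    constructor
    · intro y' hy' hn'
      have := S.o2 z y y' ho hy'
      subst this
      rw [play_self] at hn'
      cases hn'
    · intro v hv; rw [(hL v hv).2]; exact h2 v (hL v hv).1
    · intro hc v hv; rw [hs] at hc; rw [(hL v hv).2]; exact h3 hc v (hL v hv).1
    · intro _ _ _ _ _; rw [hs]; exact h4
  · exact (hz z hz4 hzx).spine hx hy hj

/-- Reply 2: colour the edge owned by the other end. -/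
lemma reply2 (S : Setup G Own) (hP : Proper G c) {x y : V} (hx : dg G x = 4)
    (hxy : G.Adj x y) (hy : dg G y = 4) (hno : ¬ Own x y)
    (hn : c s(x, y) = none) (hz : ∀ z, dg G z = 4 → z ≠ x → InvAt G Own c z)
    (how : ∀ y, Own x y → c s(x, y) ≠ none) (hs : sd G c x = ∅) : Good G Own c := by
  have ho : Own y x := (S.o3 x y hxy hx hy).resolve_left hno
  have hk := k1 S hP (hz y hy hxy.ne') ho (by rwa [Sym2.eq_swap])
  have hlt := cols_lt hP hxy hn
  have hu := card_union_le (cols G c x) (cols G c y)
  obtain ⟨j, hj⟩ := exists_legal hxy hn (by omega)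
  refine ⟨x, y, j, hj, fun z hz4 => ?_⟩
  by_cases hzx : z = x
  · subst hzx
    have hL : ∀ v, ¬ Live G (play c s(z, y) j) z v := by
      intro v hv
      have h := (live_of_play hj hv).mem_sd
      rw [hs] at h
      simp at h
    constructor
    · intro y' hy' hn'
      exact absurd (play_none.mp hn').2 (how y' hy')
    · intro v hv; exact absurd hv (hL v)
    · intro _ v hv; exact absurd hv (hL v)
    · intro y' h1 h2 h3 h4
      exfalso
      have := S.o4 z y y' hx hxy hy hno h1 h2 h3
      subst this
      rw [play_self] at h4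
      cases h4
  · exact (hz z hz4 hzx).spine hx hy hj

/-- Reply 3: kill the live leg `v` by colouring its outer edge. -/
lemma reply3 (S : Setup G Own) (hP : Proper G c) {x v : V} (hx : dg G x = 4)
    (hz : ∀ z, dg G z = 4 → z ≠ x → InvAt G Own c z)
    (how : ∀ y, Own x y → c s(x, y) ≠ none) (hv : Live G c x v)
    (hv1 : (cols G c v).card ≤ 1) (hx2 : 2 ≤ (cols G c x).card)
    (h2 : ∀ v', v' ≠ v → Live G c x v' → (cols G c v').card ≤ 1)
    (h3 : (sd G c x).card = 1 → ∀ v', v' ≠ v → Live G c x v' → cols G c v' = ∅) :
    Good G Own c := by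
  obtain ⟨hxv, hvd, hvn, hdis⟩ := id hv
  have hca := card_cols_add hP v
  obtain ⟨u, hu, hux⟩ := Finset.exists_mem_ne (s := unc G c v) (by omega) x
  rw [mem_unc] at hu
  obtain ⟨hvu, hun⟩ := hu
  have hud := S.leg x v u hxv hx hvd hvu hux
  have hlt := cols_lt hP hvu.symm (by rwa [Sym2.eq_swap])
  obtain ⟨j, hjx, hju⟩ := Finset.exists_mem_notMem_of_card_lt_card
    (s := cols G c u) (t := cols G c x) (by omega)
  have hjv : j ∉ cols G c v := fun h => (Finset.disjoint_left.mp hdis) hjx h
  have hl : Legal G c s(v, u) j := legal_iff.mpr ⟨hvu, hun, hjv, hju⟩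
  refine ⟨v, u, j, hl, fun z hz4 => ?_⟩
  by_cases hzx : z = x
  · subst hzx
    have hoff : ∀ w, play c s(v, u) j s(z, w) = c s(z, w) := fun w =>
      play_off j hxv.ne hux.symm
    have hcx : cols G (play c s(v, u) j) z = cols G c z := cols_off j hxv.ne hux.symm
    have hs : sd G (play c s(v, u) j) z = sd G c z := by
      ext w; simp only [mem_sd, hoff]
    have hL : ∀ v', Live G (play c s(v, u) j) z v' →
        v' ≠ v ∧ Live G c z v' ∧ cols G (play c s(v, u) j) v' = cols G c v' := by
      intro v' hv'
      have hne : v' ≠ v := by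
        rintro rfl
        have h := hv'.2.2.2
        rw [hcx, cols_play hl] at h
        exact (Finset.disjoint_left.mp h) hjx (mem_insert_self _ _)
      refine ⟨hne, live_of_play hl hv', cols_off j hne ?_⟩
      rintro rfl
      have := hv'.2.1
      omega
    constructor
    · intro y' hy' hn'
      exact absurd (play_none.mp hn').2 (how y' hy')
    · intro v' hv'
      obtain ⟨p, q, r⟩ := hL v' hv'
      rw [r]; exact h2 v' p q
    · intro hc v' hv'
      obtain ⟨p, q, r⟩ := hL v' hv'
      rw [hs] at hc
      rw [r]; exact h3 hc v' p q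
    · intro _ _ _ _ _
      rw [hs]; exact ⟨v, hv.mem_sd⟩
  · exact (hz z hz4 hzx).outer_off S j hx hxv hvd hvu hux hz4 hzx

/-- Reply 4: kill the live leg `v` by colouring another side edge of `x`. -/
lemma reply4 (S : Setup G Own) (hP : Proper G c) {x v w : V} (hx : dg G x = 4)
    (hz : ∀ z, dg G z = 4 → z ≠ x → InvAt G Own c z)
    (how : ∀ y, Own x y → c s(x, y) ≠ none) (hv : Live G c x v)
    (hv2 : (cols G c v).card = 2) (hw : w ∈ sd G c x) (hwv : w ≠ v)
    (h2 : ∀ v', v' ≠ v → Live G c x v' → (cols G c v').card ≤ 1) :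
    Good G Own c := by
  obtain ⟨hxv, hvd, hvn, hdis⟩ := id hv
  rw [mem_sd] at hw
  obtain ⟨hxw, hwn, hwd⟩ := hw
  have hlt := cols_lt hP hxw.symm (by rwa [Sym2.eq_swap])
  have hd4 := S.d4 w
  obtain ⟨j, hjv, hjw⟩ : ∃ j, j ∈ cols G c v ∧ j ∉ cols G c w := by
    by_contra hcon
    push Not at hcon
    have hsub : cols G c v ⊆ cols G c w := hcon
    have heq := Finset.eq_of_subset_of_card_le hsub (by omega)
    have hcw : (cols G c w).card = 2 := by rw [← heq]; exact hv2
    have hwL : Live G c x w := ⟨hxw, by omega, hwn, by rw [← heq]; exact hdis⟩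
    have := h2 w hwv hwL
    omega
  have hjx : j ∉ cols G c x := fun h => (Finset.disjoint_left.mp hdis) h hjv
  have hl : Legal G c s(x, w) j := legal_iff.mpr ⟨hxw, hwn, hjx, hjw⟩
  refine ⟨x, w, j, hl, fun z hz4 => ?_⟩
  by_cases hzx : z = x
  · subst hzx
    have hvsd : v ∈ sd G (play c s(z, w) j) z := by
      rw [mem_sd]
      refine ⟨hxv, play_none.mpr ⟨?_, hvn⟩, by omega⟩
      intro h
      exact hwv (Sym2.congr_right.mp h).symm
    have hL : ∀ v', Live G (play c s(z, w) j) z v' →
        v' ≠ v ∧ Live G c z v' ∧ cols G (play c s(z, w) j) v' = cols G c v' := by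
      intro v' hv'
      refine ⟨?_, live_of_play hl hv', cols_off j hv'.1.ne' ?_⟩
      · rintro rfl
        have h := hv'.2.2.2
        rw [cols_play hl] at h
        exact (Finset.disjoint_left.mp h) (mem_insert_self _ _) (cols_mono hl v' hjv)
      · rintro rfl
        have h := hv'.2.2.1
        rw [play_self] at h
        cases h
    constructor
    · intro y' hy' hn'
      exact absurd (play_none.mp hn').2 (how y' hy')
    · intro v' hv'
      obtain ⟨p, q, r⟩ := hL v' hv'
      rw [r]; exact h2 v' p q
    · intro hc v' hv'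
      exfalso
      obtain ⟨p, q, r⟩ := hL v' hv'
      obtain ⟨t, ht⟩ := Finset.card_eq_one.mp hc
      have m1 := hv'.mem_sd
      rw [ht, mem_singleton] at m1 hvsd
      exact p (m1.trans hvsd.symm)
    · intro _ _ _ _ _
      exact ⟨v, hvsd⟩
  · exact (hz z hz4 hzx).side_off S j hx hxw hwd hz4 hzx

lemma unc_card_le (S : Setup G Own) {x : V} (hx : dg G x = 4)
    (how : ∀ y, Own x y → c s(x, y) ≠ none) : (unc G c x).card ≤ (sd G c x).card + 1 := by
  have hsub : unc G c x ⊆ sd G c x ∪
      (univ.filter fun y => G.Adj x y ∧ c s(x, y) = none ∧ dg G y = 4) := by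
    intro w hw
    rw [mem_unc] at hw
    rw [mem_union, mem_sd, mem_filter]
    by_cases h : dg G w = 4
    · exact Or.inr ⟨mem_univ _, hw.1, hw.2, h⟩
    · exact Or.inl ⟨hw.1, hw.2, h⟩
  have h1 := card_le_card hsub
  have h2 := card_union_le (sd G c x)
    (univ.filter fun y => G.Adj x y ∧ c s(x, y) = none ∧ dg G y = 4)
  have h3 : (univ.filter fun y => G.Adj x y ∧ c s(x, y) = none ∧ dg G y = 4).card ≤ 1 := by
    rw [Finset.card_le_one]
    intro a ha b hb
    simp only [mem_filter, mem_univ, true_and] at ha hb
    exact S.o4 x a b hx ha.1 ha.2.2 (fun h => how a h ha.2.1) hb.1 hb.2.2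
      (fun h => how b h hb.2.1)
  omega

/-- Bob coloured an edge from `x` to a vertex of degree `≠ 4`. -/
lemma bob_side (S : Setup G Own) (hP : Proper G c) (hI : Inv G Own c) {x w : V} {i : Fin 5}
    (hx : dg G x = 4) (hw : dg G w ≠ 4) (hl : Legal G c s(x, w) i) :
    Inv G Own (play c s(x, w) i) ∨ Good G Own (play c s(x, w) i) := by
  obtain ⟨hxw, hwn, hix, hiw⟩ := legal_iff.mp hl
  have hP' := proper_play hP hl
  have hz : ∀ z, dg G z = 4 → z ≠ x → InvAt G Own (play c s(x, w) i) z := fun z hz hzx =>
    (hI z hz).side_off S i hx hxw hw hz hzx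
  have hIx := hI x hx
  have hL : ∀ v, Live G (play c s(x, w) i) x v →
      Live G c x v ∧ cols G (play c s(x, w) i) v = cols G c v := by
    intro v hv
    refine ⟨live_of_play hl hv, cols_off i hv.1.ne' ?_⟩
    rintro rfl
    have h := hv.2.2.1
    rw [play_self] at h
    cases h
  by_cases ho : ∃ y, Own x y ∧ c s(x, y) = none
  · right
    obtain ⟨y, ho, hn⟩ := ho
    have hy := (S.o1 x y ho).2.2
    obtain ⟨p, q⟩ := hIx.i1 y ho hn
    refine reply1 S hP' ho (play_none.mpr ⟨?_, hn⟩) hz ?_ ?_ ?_ ?_
    · intro h
      have := Sym2.congr_right.mp h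
      exact hw (this ▸ hy)
    · have h1 := k1 S hP hIx ho hn
      have h2 := card_le_card (cols_sub hl x)
      have h3 := card_insert_le i (cols G c x)
      omega
    · intro v hv
      rw [(hL v hv).2, q v (hL v hv).1]
      simp
    · intro _ v hv
      rw [(hL v hv).2, q v (hL v hv).1]
    · obtain ⟨w', hw', hne⟩ := Finset.exists_mem_ne
        (s := univ.filter fun w => G.Adj x w ∧ dg G w ≠ 4) (by have := S.two x hx; omega) w
      simp only [mem_filter, mem_univ, true_and] at hw'
      refine ⟨w', mem_sd.mpr ⟨hw'.1, play_none.mpr ⟨?_, p w' hw'.1 hw'.2⟩, hw'.2⟩⟩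
      intro h
      exact hne (Sym2.congr_right.mp h)
  · push Not at ho
    have how' : ∀ y, Own x y → play c s(x, w) i s(x, y) ≠ none := by
      intro y hy hn
      exact ho y hy (play_none.mp hn).2
    by_cases hs : sd G (play c s(x, w) i) x = ∅ ∧
        ∃ y, G.Adj x y ∧ dg G y = 4 ∧ ¬ Own x y ∧ play c s(x, w) i s(x, y) = none
    · obtain ⟨hs, y, h1, h2, h3, h4⟩ := hs
      exact Or.inr (reply2 S hP' hx h1 h2 h3 h4 hz how' hs)
    by_cases h3 : (sd G (play c s(x, w) i) x).card = 1 ∧
        ∃ v, Live G (play c s(x, w) i) x v ∧ cols G (play c s(x, w) i) v ≠ ∅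
    · obtain ⟨h3, v, hv, -⟩ := h3
      right
      have hu := unc_card_le S hx how'
      have hc := card_cols_add hP' x
      refine reply3 S hP' hx hz how' hv ?_ (by omega) ?_ ?_
      · rw [(hL v hv).2]; exact hIx.i2 v (hL v hv).1
      · intro v' _ hv'
        rw [(hL v' hv').2]; exact hIx.i2 v' (hL v' hv').1
      · intro _ v' hne hv'
        exfalso
        obtain ⟨t, ht⟩ := Finset.card_eq_one.mp h3
        have m1 := hv'.mem_sd
        have m2 := hv.mem_sd
        rw [ht, mem_singleton] at m1 m2
        exact hne (m1.trans m2.symm)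
    · left
      intro z hz4
      by_cases hzx : z = x
      · subst hzx
        constructor
        · intro y hy hn; exact absurd hn (how' y hy)
        · intro v hv; rw [(hL v hv).2]; exact hIx.i2 v (hL v hv).1
        · intro hc v hv
          by_contra hne
          exact h3 ⟨hc, v, hv, hne⟩
        · intro y a1 a2 a3 a4
          rw [Finset.nonempty_iff_ne_empty]
          intro he
          exact hs ⟨he, y, a1, a2, a3, a4⟩
      · exact hz z hz4 hzx

/-- Bob coloured the edge `v u`, where `v` is a neighbour of degree three of `x`. -/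
lemma bob_outer (S : Setup G Own) (hP : Proper G c) (hI : Inv G Own c) {x v u : V} {i : Fin 5}
    (hx : dg G x = 4) (hxv : G.Adj x v) (hvd : dg G v = 3) (hux : u ≠ x)
    (hl : Legal G c s(v, u) i) :
    Inv G Own (play c s(v, u) i) ∨ Good G Own (play c s(v, u) i) := by
  obtain ⟨hvu, hun, hiv, hiu⟩ := legal_iff.mp hl
  have hP' := proper_play hP hl
  have hud := S.leg x v u hxv hx hvd hvu hux
  have hz : ∀ z, dg G z = 4 → z ≠ x → InvAt G Own (play c s(v, u) i) z := fun z hz hzx =>
    (hI z hz).outer_off S i hx hxv hvd hvu hux hz hzx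
  have hIx := hI x hx
  have hoff : ∀ w, play c s(v, u) i s(x, w) = c s(x, w) := fun w =>
    play_off i hxv.ne hux.symm
  have hcx : cols G (play c s(v, u) i) x = cols G c x := cols_off i hxv.ne hux.symm
  have hs : sd G (play c s(v, u) i) x = sd G c x := by
    ext w; simp only [mem_sd, hoff]
  have hL : ∀ v', v' ≠ v → Live G (play c s(v, u) i) x v' →
      Live G c x v' ∧ cols G (play c s(v, u) i) v' = cols G c v' := by
    intro v' hne hv'
    refine ⟨live_of_play hl hv', cols_off i hne ?_⟩
    rintro rfl
    have := hv'.2.1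
    omega
  by_cases hlv : Live G (play c s(v, u) i) x v
  · have hlc : Live G c x v := live_of_play hl hlv
    have hcv : cols G (play c s(v, u) i) v = insert i (cols G c v) := cols_play hl
    by_cases ho : ∃ y, Own x y ∧ c s(x, y) = none
    · right
      obtain ⟨y, ho, hn⟩ := ho
      obtain ⟨p, q⟩ := hIx.i1 y ho hn
      refine reply1 S hP' ho (by rw [hoff]; exact hn) hz ?_ ?_ ?_ ⟨v, hlv.mem_sd⟩
      · rw [hcx]
        have h1 := k1 S hP hIx ho hn
        omega
      · intro v' hv'
        by_cases hne : v' = v
        · subst hne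
          rw [hcv, q v' hlc]; simp
        · rw [(hL v' hne hv').2, q v' (hL v' hne hv').1]; simp
      · intro hc
        exfalso
        have h2 := S.two x hx
        have hsub : (univ.filter fun w => G.Adj x w ∧ dg G w ≠ 4) ⊆
            sd G (play c s(v, u) i) x := by
          intro w hw
          simp only [mem_filter, mem_univ, true_and] at hw
          rw [hs, mem_sd]
          exact ⟨hw.1, p w hw.1 hw.2, hw.2⟩
        have := card_le_card hsub
        omega
    · push Not at ho
      have how' : ∀ y, Own x y → play c s(v, u) i s(x, y) ≠ none := by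
        intro y hy hn
        exact ho y hy (play_none.mp hn).2
      by_cases hc1 : (sd G c x).card = 1
      · right
        have hu := unc_card_le S hx how'
        have hc := card_cols_add hP' x
        rw [hs] at hu
        refine reply3 S hP' hx hz how' hlv ?_ (by omega) ?_ ?_
        · rw [hcv, hIx.i3 hc1 v hlc]; simp
        · intro v' hne hv'
          rw [(hL v' hne hv').2]; exact hIx.i2 v' (hL v' hne hv').1
        · intro _ v' hne hv'
          rw [(hL v' hne hv').2]; exact hIx.i3 hc1 v' (hL v' hne hv').1
      by_cases hc2 : (cols G (play c s(v, u) i) v).card ≤ 1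
      · left
        intro z hz4
        by_cases hzx : z = x
        · subst hzx
          constructor
          · intro y hy hn; exact absurd hn (how' y hy)
          · intro v' hv'
            by_cases hne : v' = v
            · subst hne; exact hc2
            · rw [(hL v' hne hv').2]; exact hIx.i2 v' (hL v' hne hv').1
          · intro hc; rw [hs] at hc; exact absurd hc hc1
          · intro _ _ _ _ _; exact ⟨v, hlv.mem_sd⟩
        · exact hz z hz4 hzx
      · right
        have h2 := hIx.i2 v hlc
        have h3 := card_insert_le i (cols G c v)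
        have hm := hlv.mem_sd
        have hpos : 0 < (sd G c x).card := by
          rw [← hs]; exact card_pos.mpr ⟨v, hm⟩
        obtain ⟨w, hw, hwv⟩ := Finset.exists_mem_ne (s := sd G (play c s(v, u) i) x)
          (by rw [hs]; omega) v
        refine reply4 S hP' hx hz how' hlv ?_ hw hwv ?_
        · rw [hcv] at hc2 ⊢; omega
        · intro v' hne hv'
          rw [(hL v' hne hv').2]; exact hIx.i2 v' (hL v' hne hv').1
  · left
    have hne : ∀ v', Live G (play c s(v, u) i) x v' → v' ≠ v := by
      rintro v' hv' rfl; exact hlv hv'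
    intro z hz4
    by_cases hzx : z = x
    · subst hzx
      constructor
      · intro y hy hn
        rw [hoff] at hn
        obtain ⟨p, q⟩ := hIx.i1 y hy hn
        refine ⟨fun w h1 h2 => by rw [hoff]; exact p w h1 h2, fun v' hv' => ?_⟩
        rw [(hL v' (hne v' hv') hv').2]; exact q v' (hL v' (hne v' hv') hv').1
      · intro v' hv'
        rw [(hL v' (hne v' hv') hv').2]; exact hIx.i2 v' (hL v' (hne v' hv') hv').1
      · intro hc v' hv'
        rw [hs] at hc
        rw [(hL v' (hne v' hv') hv').2]; exact hIx.i3 hc v' (hL v' (hne v' hv') hv').1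
      · intro y a1 a2 a3 a4
        rw [hoff] at a4
        rw [hs]; exact hIx.i4 y a1 a2 a3 a4
    · exact hz z hz4 hzx

/-- After any move of Bob, either the invariant still holds or Alice can restore it. -/
lemma bob_move (S : Setup G Own) (hP : Proper G c) (hI : Inv G Own c) {a b : V} {i : Fin 5}
    (hl : Legal G c s(a, b) i) :
    Inv G Own (play c s(a, b) i) ∨ Good G Own (play c s(a, b) i) := by
  obtain ⟨hab, hn, hia, hib⟩ := legal_iff.mp hl
  by_cases ha : dg G a = 4
  · by_cases hb : dg G b = 4
    · left
      intro x hx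
      exact (hI x hx).spine ha hb hl
    · exact bob_side S hP hI ha hb hl
  by_cases hb : dg G b = 4
  · have := bob_side S hP hI hb ha hl.symm
    rwa [Sym2.eq_swap] at this
  by_cases h : ∃ x, dg G x = 4 ∧ G.Adj x a ∧ dg G a = 3
  · obtain ⟨x, hx, hxa, had⟩ := h
    exact bob_outer S hP hI hx hxa had (by rintro rfl; exact hb hx) hl
  by_cases h' : ∃ x, dg G x = 4 ∧ G.Adj x b ∧ dg G b = 3
  · obtain ⟨x, hx, hxb, hbd⟩ := h'
    have := bob_outer S hP hI hx hxb hbd (u := a) (by rintro rfl; exact ha hx) hl.symm
    rwa [Sym2.eq_swap] at this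
  · left
    intro z hz
    refine (hI z hz).off i ?_ ?_ ?_
    · rintro rfl; exact ha hz
    · rintro rfl; exact hb hz
    · intro v hv hd
      constructor
      · rintro rfl; exact h ⟨z, hz, hv, hd⟩
      · rintro rfl; exact h' ⟨z, hz, hv, hd⟩

/-- If the invariant holds and some edge is uncoloured, Alice can move and keep the invariant. -/
lemma free_move (S : Setup G Own) (hP : Proper G c) (hI : Inv G Own c)
    (hf : ∃ a b, G.Adj a b ∧ c s(a, b) = none) : Good G Own c := by
  by_cases f1 : ∃ a b, G.Adj a b ∧ dg G a = 4 ∧ dg G b = 4 ∧ c s(a, b) = none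
  · obtain ⟨a, b, hab, ha, hb, hn⟩ := f1
    obtain ⟨j, hj⟩ := exists_legal hab hn ((safe_edge S hP hI hab hn).le hP hab hn)
    exact ⟨a, b, j, hj, fun x hx => (hI x hx).spine ha hb hj⟩
  push Not at f1
  have how : ∀ x y, Own x y → c s(x, y) ≠ none := by
    intro x y ho
    obtain ⟨h1, h2, h3⟩ := S.o1 x y ho
    exact f1 x y h1 h2 h3
  by_cases f2 : ∃ x, dg G x = 4 ∧ (sd G c x).Nonempty
  · obtain ⟨x, hx, hne⟩ := f2
    have hIx := hI x hx
    by_cases hc : (sd G c x).card ≤ 2 ∧ ∃ v, Live G c x v ∧ (cols G c v).card = 1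
    · obtain ⟨hc, v, hv, hv1⟩ := hc
      have hsub : unc G c x ⊆ sd G c x := by
        intro w hw
        rw [mem_unc] at hw
        rw [mem_sd]
        refine ⟨hw.1, hw.2, fun hd => ?_⟩
        exact f1 x w hw.1 hx hd hw.2
      have hle := card_le_card hsub
      have hca := card_cols_add hP x
      exact reply3 S hP hx (fun z hz _ => hI z hz) (how x) hv (by omega) (by omega)
        (fun v' _ hv' => hIx.i2 v' hv') (fun h v' _ hv' => hIx.i3 h v' hv')
    · obtain ⟨w, hw⟩ := hne
      have hw' := hw
      rw [mem_sd] at hw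
      obtain ⟨hxw, hwn, hwd⟩ := hw
      obtain ⟨j, hj⟩ := exists_legal hxw hwn ((safe_edge S hP hI hxw hwn).le hP hxw hwn)
      refine ⟨x, w, j, hj, fun z hz => ?_⟩
      by_cases hzx : z = x
      · subst hzx
        have hL : ∀ v, Live G (play c s(z, w) j) z v →
            Live G c z v ∧ cols G (play c s(z, w) j) v = cols G c v := by
          intro v hv
          refine ⟨live_of_play hj hv, cols_off j hv.1.ne' ?_⟩
          rintro rfl
          have h := hv.2.2.1
          rw [play_self] at h
          cases h
        constructor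
        · intro y hy hn
          exact absurd (play_none.mp hn).2 (how z y hy)
        · intro v hv; rw [(hL v hv).2]; exact hIx.i2 v (hL v hv).1
        · intro h1 v hv
          rw [(hL v hv).2]
          have hsub : sd G c z ⊆ insert w (sd G (play c s(z, w) j) z) := by
            intro w' hw'
            rw [mem_insert]
            by_cases hww : w' = w
            · exact Or.inl hww
            · right
              rw [mem_sd] at hw' ⊢
              refine ⟨hw'.1, play_none.mpr ⟨?_, hw'.2.1⟩, hw'.2.2⟩
              intro h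
              exact hww (Sym2.congr_right.mp h)
          have h2 := card_le_card hsub
          have h3 := card_insert_le w (sd G (play c s(z, w) j) z)
          have h4 := hIx.i2 v (hL v hv).1
          by_contra hne
          have h5 : 0 < (cols G c v).card := card_pos.mpr (Finset.nonempty_iff_ne_empty.mpr hne)
          exact hc ⟨by omega, v, (hL v hv).1, by omega⟩
        · intro y h1 h2 _ h4
          exact absurd (play_none.mp h4).2 (f1 z y h1 hx h2)
      · exact (hI z hz).side_off S j hx hxw hwd hz hzx
  · -- all edges at vertices of degree four are coloured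
    push Not at f2
    obtain ⟨a, b, hab, hn⟩ := hf
    have hnone : ∀ x w, dg G x = 4 → G.Adj x w → c s(x, w) ≠ none := by
      intro x w hx hxw hcn
      by_cases hw : dg G w = 4
      · exact f1 x w hxw hx hw hcn
      · have h : w ∈ sd G c x := mem_sd.mpr ⟨hxw, hcn, hw⟩
        have h' := f2 x hx
        rw [h'] at h
        simp at h
    obtain ⟨j, hj⟩ := exists_legal hab hn ((safe_edge S hP hI hab hn).le hP hab hn)
    refine ⟨a, b, j, hj, fun z hz => ?_⟩
    constructor
    · intro y hy h; exact absurd (play_none.mp h).2 (how z y hy)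
    · intro v hv
      exact absurd (live_of_play hj hv).2.2.1 (hnone z v hz hv.1)
    · intro _ v hv
      exact absurd (live_of_play hj hv).2.2.1 (hnone z v hz hv.1)
    · intro y h1 h2 _ h4
      exact absurd (play_none.mp h4).2 (f1 z y h1 hz h2)

/-- The number of uncoloured edges. -/
noncomputable def left (G : SimpleGraph V) (c : Position V 5) : ℕ :=
  (univ.filter fun e : Sym2 V => e ∈ G.edgeSet ∧ c e = none).card

lemma left_play {e : Sym2 V} {i : Fin 5} (h : Legal G c e i) :
    left G (play c e i) < left G c := by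
  apply card_lt_card
  rw [Finset.ssubset_iff_of_subset]
  · refine ⟨e, ?_, ?_⟩
    · simp only [mem_filter, mem_univ, true_and]; exact ⟨h.1, h.2.1⟩
    · simp only [mem_filter, mem_univ, true_and, play_self]
      rintro ⟨-, h⟩; cases h
  · intro e' he'
    simp only [mem_filter, mem_univ, true_and] at he' ⊢
    exact ⟨he'.1, (play_none.mp he'.2).2⟩

theorem wins (S : Setup G Own) : ∀ (n : ℕ) (c : Position V 5), left G c ≤ n → Proper G c →
    Inv G Own c → AliceWins G false c := by
  intro n
  induction n using Nat.strong_induction_on with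
  | _ n ih =>
    intro c hn hP hI
    refine AliceWins.bob c (not_stuck_alice S hP hI) ?_
    intro e i hl
    induction e using Sym2.ind with
    | _ a b =>
      have hP' := proper_play hP hl
      have hl' := left_play hl
      have hfin : Good G Own (play c s(a, b) i) → AliceWins G true (play c s(a, b) i) := by
        rintro ⟨p, q, j, hj, hI'⟩
        have hlj := left_play hj
        refine AliceWins.alice _ _ j (not_stuck_bob S hP hI hl) hj ?_
        exact ih (left G (play (play c s(a, b) i) s(p, q) j)) (by omega) _ le_rfl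
          (proper_play hP' hj) hI'
      rcases bob_move S hP hI hl with h | h
      · by_cases hf : ∃ a' b', G.Adj a' b' ∧ play c s(a, b) i s(a', b') = none
        · exact hfin (free_move S hP' h hf)
        · refine AliceWins.full _ _ ?_
          intro e he hen
          induction e using Sym2.ind with
          | _ a' b' => exact hf ⟨a', b', he, hen⟩
      · exact hfin h

/-- Alice, moving first, wins with five colours under the standing assumptions. -/
theorem wins_first (S : Setup G Own) : AliceWinsGame G 5 := by
  have hcols : ∀ v, cols G (fun _ => none : Position V 5) v = ∅ := by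
    intro v
    ext j
    simp [mem_cols]
  have hP : Proper G (fun _ => none : Position V 5) := by
    intro v w w' i _ _ h _
    cases h
  have hI : Inv G Own (fun _ => none : Position V 5) := by
    intro x hx
    constructor
    · intro y _ _
      exact ⟨fun _ _ _ => rfl, fun v _ => hcols v⟩
    · intro v _; rw [hcols]; simp
    · intro _ v _; exact hcols v
    · intro y _ _ _ _
      have h2 := S.two x hx
      obtain ⟨w, hw⟩ : (univ.filter fun w => G.Adj x w ∧ dg G w ≠ 4).Nonempty := by
        rw [← card_pos]; omega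
      simp only [mem_filter, mem_univ, true_and] at hw
      exact ⟨w, mem_sd.mpr ⟨hw.1, rfl, hw.2⟩⟩
  by_cases hf : ∃ a b, G.Adj a b ∧ (fun _ => none : Position V 5) s(a, b) = none
  · obtain ⟨a, b, j, hj, hI'⟩ := free_move S hP hI hf
    exact AliceWins.alice _ _ j (not_stuck_alice S hP hI) hj
      (wins S _ _ le_rfl (proper_play hP hj) hI')
  · refine AliceWins.full _ _ ?_
    intro e he hen
    induction e using Sym2.ind with
    | _ a' b' => exact hf ⟨a', b', he, hen⟩

end Pool.Agent.MP_bbf27c_co
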